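import Pool.Agent.Helper79.TL.Core

/-! TL-A3 -/

set_option autoImplicit false

open Module

namespace Pool.Agent.Helper79.TL.A3

open Pool.Agent.Helper79.TL

/-- the final computation -/
theorem arith {g y0 y1 y2 : ℂ} (hg : g ^ 2 = 1 - g)
    (e1 : y0 ^ 2 = 32 - 4 * y1) (e0 : y1 * y0 = -(4 * y0) - 4 * y1)
    (e2 : g / 2 * y0 ^ 2 = -((1 - g) * y0) - 2 * y1 + (g - 2) * y2)
    (e3 : (-1 - g) / 2 * y0 ^ 2 = -((2 + g) * y0) - (1 - g) * y1 + 2 * (1 + 2 * g) * y2) :
    False := by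
  have h1 : y1 = 8 - y0 ^ 2 / 4 := by linear_combination (1 / 4) * e1
  subst h1
  have h2 : (y0 + 8) * (y0 ^ 2 - 4 * y0 - 16) = 0 := by linear_combination -4 * e0
  have h3 : (1 + 12 * g) * y0 ^ 2 - 4 * (1 + 7 * g) * y0 - (224 + 128 * g) = 0 := by
    linear_combination (-8 * (1 + 2 * g)) * e2 + 4 * (g - 2) * e3 +
      (9 * y0 ^ 2 - 20 * y0 + 32) * hg
  rcases mul_eq_zero.1 h2 with h4 | h4
  · have h5 : y0 = -8 := by linear_combination h4
    subst h5
    have h6 : g = 4 / 27 := by linear_combination (1 / 864) * h3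
    subst h6
    norm_num at hg
  · have h5 : 5 * y0 = 36 + 52 * g := by
      have h6 : 20 * g * y0 = 208 - 64 * g := by
        linear_combination h3 - (1 + 12 * g) * h4
      linear_combination ((1 + g) / 4) * h6 - (5 * y0 + 16) * hg
    have h6 : y0 = (36 + 52 * g) / 5 := by linear_combination h5 / 5
    rw [h6] at h4
    have h7 : (2880 : ℂ) = 0 := by
      linear_combination 25 * h4 - 2704 * hg
    norm_num at h7

/-- TL-A3 -/
theorem kside_nontriv {M : Type} [AddCommGroup M] [Module ℂ M] [FiniteDimensional ℂ M]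
    {t s : Module.End ℂ M} {Y : Fin 3 → Module.End ℂ M} (h : HMod t s Y)
    (hle : finrank ℂ M ≤ 2) (ζ : ℂ) (hζ : ζ ^ 5 = 1) (hζ1 : ζ ≠ 1) (v : M) (hv : v ≠ 0)
    (htv : t v = ζ • v) : False := by
  have hz : ζ ^ 4 + ζ ^ 3 + ζ ^ 2 + ζ + 1 = 0 := by
    have h1 : (ζ - 1) * (ζ ^ 4 + ζ ^ 3 + ζ ^ 2 + ζ + 1) = 0 := by linear_combination hζ
    exact (mul_eq_zero.1 h1).resolve_left (sub_ne_zero.2 hζ1)
  have hζ0 : ζ ≠ 0 := by
    intro h0
    rw [h0] at hζ
    norm_num at hζ
  -- the vector `s v`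
  set u := s v with hu
  have hsu : s u = v := by
    have := LinearMap.congr_fun h.ss v
    simpa using this
  have hu0 : u ≠ 0 := by
    intro h0
    rw [h0, map_zero] at hsu
    exact hv hsu.symm
  have hst : s (t v) = (t ^ 4) u := by
    have := LinearMap.congr_fun h.st v
    simpa using this
  have htu : t u = ζ ^ 4 • u := by
    have h1 : t ((t ^ 4) u) = u := by
      have h2 := LinearMap.congr_fun h.t5 u
      rw [show t ^ 5 = t * t ^ 4 by rw [← pow_succ'], Module.End.mul_apply] at h2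
      simpa using h2
    rw [← hst, htv, map_smul, map_smul, ← hu] at h1
    have h3 : ζ ^ 4 • (ζ • t u) = ζ ^ 4 • u := by rw [h1]
    rw [smul_smul, ← pow_succ, hζ, one_smul] at h3
    exact h3
  have hne : ζ ≠ ζ ^ 4 := by
    intro h0
    have h1 : ζ ^ 3 = 1 := by
      have h2 : ζ * (ζ ^ 3 - 1) = 0 := by linear_combination -h0
      have := (mul_eq_zero.1 h2).resolve_left hζ0
      linear_combination this
    apply hζ1
    have h2 : ζ ^ 2 = 1 := by
      have : ζ ^ 5 = ζ ^ 3 * ζ ^ 2 := by ring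
      rw [h1, hζ, one_mul] at this
      exact this.symm
    have : ζ ^ 3 = ζ ^ 2 * ζ := by ring
    rw [h1, h2, one_mul] at this
    exact this.symm
  have hli : LinearIndependent ℂ ![v, u] := by
    rw [LinearIndependent.pair_iff]
    intro a b hab
    have h1 := congrArg t hab
    rw [map_add, map_smul, map_smul, htv, htu, map_zero] at h1
    have h2 : (b * (ζ ^ 4 - ζ)) • u = 0 := by
      linear_combination (norm := module) h1 - ζ • hab
    have hb : b = 0 := by
      rcases smul_eq_zero.1 h2 with h3 | h3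
      · exact (mul_eq_zero.1 h3).resolve_right (sub_ne_zero.2 hne.symm)
      · exact absurd h3 hu0
    subst hb
    rw [zero_smul, add_zero] at hab
    exact ⟨(smul_eq_zero.1 hab).resolve_right hv, rfl⟩
  have hspan : ∀ m : M, ∃ a b : ℂ, m = a • v + b • u := by
    intro m
    have h1 : finrank ℂ M = 2 := by
      have := hli.fintype_card_le_finrank
      simp at this
      omega
    have h2 : Submodule.span ℂ (Set.range ![v, u]) = ⊤ := by
      apply hli.span_eq_top_of_card_eq_finrank'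
      simp [h1]
    have h3 : m ∈ Submodule.span ℂ (Set.range ![v, u]) := h2 ▸ Submodule.mem_top
    rw [Matrix.range_cons, Matrix.range_cons, Matrix.range_empty, Set.union_empty,
      Set.singleton_union, Submodule.mem_span_pair] at h3
    obtain ⟨a, b, hab⟩ := h3
    exact ⟨a, b, hab.symm⟩
  -- the powers of `t`
  have tv : ∀ k : ℕ, (t ^ k) v = ζ ^ k • v := by
    intro k
    induction k with
    | zero => simp
    | succ k ih => rw [pow_succ', Module.End.mul_apply, ih, map_smul, htv, smul_smul, pow_succ]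
  have tu : ∀ k : ℕ, (t ^ k) u = ζ ^ (4 * k) • u := by
    intro k
    induction k with
    | zero => simp
    | succ k ih =>
      rw [pow_succ', Module.End.mul_apply, ih, map_smul, htu, smul_smul, ← pow_add, mul_add, mul_one]
  have hζ8 : ζ ^ 8 = ζ ^ 3 := by
    have : ζ ^ 8 = ζ ^ 5 * ζ ^ 3 := by ring
    rw [this, hζ, one_mul]
  have hζ12 : ζ ^ 12 = ζ ^ 2 := by
    have : ζ ^ 12 = ζ ^ 5 * ζ ^ 5 * ζ ^ 2 := by ring
    rw [this, hζ, one_mul, one_mul]
  have hζ16 : ζ ^ 16 = ζ := by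
    have : ζ ^ 16 = ζ ^ 5 * ζ ^ 5 * ζ ^ 5 * ζ := by ring
    rw [this, hζ, one_mul, one_mul, one_mul]
  have tv2 := tv 2
  have tv3 := tv 3
  have tv4 := tv 4
  have tu2 := tu 2
  have tu3 := tu 3
  have tu4 := tu 4
  norm_num only at tu2 tu3 tu4
  rw [hζ8] at tu2
  rw [hζ12] at tu3
  rw [hζ16] at tu4
  -- fixed vectors of `s`
  have hfix : ∀ m : M, s m = m → ∃ c : ℂ, m = c • (v + u) := by
    intro m hm
    obtain ⟨a, b, hab⟩ := hspan m
    rw [hab, map_add, map_smul, map_smul, ← hu, hsu] at hm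
    have h1 : (a - b) • v + (b - a) • u = 0 := by
      linear_combination (norm := module) -hm
    have h2 := (LinearIndependent.pair_iff.1 hli _ _ h1).1
    refine ⟨a, ?_⟩
    rw [hab, sub_eq_zero.1 h2, smul_add]
  have hanti : ∀ m : M, s m = -m → ∃ c : ℂ, m = c • (v - u) := by
    intro m hm
    obtain ⟨a, b, hab⟩ := hspan m
    rw [hab, map_add, map_smul, map_smul, ← hu, hsu] at hm
    have h1 : (a + b) • v + (a + b) • u = 0 := by
      linear_combination (norm := module) hm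
    have h2 := (LinearIndependent.pair_iff.1 hli _ _ h1).1
    refine ⟨a, ?_⟩
    rw [hab, eq_neg_of_add_eq_zero_right h2]
    module
  have e0 : ∃ y0 : ℂ, Y 0 (v + u) = y0 • (v + u) := hfix _ (by
    have := LinearMap.congr_fun h.sY0 (v + u)
    simpa using this)
  have e1 : ∃ y1 : ℂ, Y 1 (v + u) = y1 • (v + u) := hfix _ (by
    have := LinearMap.congr_fun h.sY1 (v + u)
    simpa using this)
  have e2 : ∃ y2 : ℂ, Y 2 (v - u) = y2 • (v - u) := hanti _ (by
    have := LinearMap.congr_fun h.sY2 (v - u)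
    simpa using this)
  obtain ⟨y0, hy0⟩ := e0
  obtain ⟨y1, hy1⟩ := e1
  obtain ⟨y2, hy2⟩ := e2
  have f0 : Y 0 u = Y 0 v := by
    have := LinearMap.congr_fun h.Y0s v
    simpa using this
  have f1 : Y 1 u = Y 1 v := by
    have := LinearMap.congr_fun h.Y1s v
    simpa using this
  have f2 : Y 2 u = - Y 2 v := by
    have := LinearMap.congr_fun h.Y2s v
    simpa using this
  have g0 : Y 0 v = (y0 / 2) • (v + u) := by
    rw [map_add, f0] at hy0
    linear_combination (norm := module) (1 / 2 : ℂ) • hy0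
  have g1 : Y 1 v = (y1 / 2) • (v + u) := by
    rw [map_add, f1] at hy1
    linear_combination (norm := module) (1 / 2 : ℂ) • hy1
  have g2 : Y 2 v = (y2 / 2) • (v - u) := by
    rw [map_sub, f2] at hy2
    linear_combination (norm := module) (1 / 2 : ℂ) • hy2
  have hvu : ∀ c : ℂ, c • (v + u) = 0 → c = 0 := by
    intro c hc
    rw [smul_add] at hc
    exact (LinearIndependent.pair_iff.1 hli _ _ hc).1
  have k1 := LinearMap.congr_fun h.r000 (v + u)
  have k0 := LinearMap.congr_fun h.r100 (v + u)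
  have k2 := LinearMap.congr_fun h.r010 (v + u)
  have k3 := LinearMap.congr_fun h.r020 (v + u)
  have n16 : ∀ m : M, (16 : Module.End ℂ M) m = (16 : ℂ) • m := fun m => by
    rw [Module.End.ofNat_apply, ← Nat.cast_smul_eq_nsmul ℂ]
    norm_num
  have n4 : ∀ m : M, (4 : Module.End ℂ M) m = (4 : ℂ) • m := fun m => by
    rw [Module.End.ofNat_apply, ← Nat.cast_smul_eq_nsmul ℂ]
    norm_num
  simp only [Module.End.mul_apply, LinearMap.add_apply, LinearMap.sub_apply, LinearMap.neg_apply,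
    map_add, map_sub, map_smul, map_neg, tv2, tv3, tv4, tu2, tu3, tu4, htv, htu, ← hu, hsu,
    f0, f1, f2, g0, g1, g2, n16, n4] at k0 k1 k2 k3
  have q0 : (y1 * y0 - (-(4 * y0) - 4 * y1)) • (v + u) = 0 := by
    linear_combination (norm := module) k0
  have q1 : (y0 ^ 2 - (32 - 4 * y1)) • (v + u) = 0 := by
    linear_combination (norm := module) k1
  have q2 : ((ζ + ζ ^ 4) / 2 * y0 ^ 2 - (-((ζ + ζ ^ 4) ^ 2 * y0) +
      2 * ((ζ + ζ ^ 4) * (ζ ^ 2 + ζ ^ 3)) * y1 + (ζ ^ 2 - ζ ^ 3) ^ 2 * y2)) • (v + u) = 0 := by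
    linear_combination (norm := module) k2
  have q3 : ((ζ ^ 2 + ζ ^ 3) / 2 * y0 ^ 2 - (-((ζ ^ 2 + ζ ^ 3) ^ 2 * y0) -
      (ζ + ζ ^ 4) ^ 2 * y1 - 2 * ((ζ - ζ ^ 4) * (ζ ^ 2 - ζ ^ 3)) * y2)) • (v + u) = 0 := by
    linear_combination (norm := module) k3
  have i1 : (ζ + ζ ^ 4) ^ 2 = 1 - (ζ + ζ ^ 4) := by
    linear_combination (ζ ^ 3 + 2) * hζ + hz
  have i2 : ζ ^ 2 + ζ ^ 3 = -1 - (ζ + ζ ^ 4) := by
    linear_combination hz
  have i3 : (ζ ^ 2 - ζ ^ 3) ^ 2 = (ζ + ζ ^ 4) - 2 := by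
    linear_combination (ζ - 2) * hζ
  have i4 : (ζ - ζ ^ 4) * (ζ ^ 2 - ζ ^ 3) = -1 - 2 * (ζ + ζ ^ 4) := by
    linear_combination (ζ ^ 2 - ζ) * hζ + hz
  rw [i3, i2] at q2
  rw [i4, i2] at q3
  generalize ζ + ζ ^ 4 = g at q2 q3 i1
  refine arith (g := g) (y0 := y0) (y1 := y1) (y2 := y2) i1 ?_ ?_ ?_ ?_
  · linear_combination hvu _ q1
  · linear_combination hvu _ q0
  · linear_combination hvu _ q2 - (y0 + 2 * y1) * i1
  · linear_combination hvu _ q3 - (y0 + y1) * i1

end Pool.Agent.Helper79.TL.A3
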